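import Pool.Agent.Lib.MP_757a88_nt.PS.B8
import Pool.Agent.Lib.MP_757a88_nt.PS.S2

/-!
# The upper half of Pomerance's conjecture for almost all bases
-/

set_option autoImplicit false

namespace Pool.Agent.Results.MP_757a88_nt.AlmostAllBases

open Pool.Agent.Lib.MP_757a88_nt.PS

theorem result :
    ∀ κ ε : ℝ, 1 < κ → κ ≤ 2 → 0 < ε → ∀ N : ℕ,
    ∀ P ∈ ({fun a n : ℕ => Nat.FermatPsp n a,
            fun a n : ℕ => Odd n ∧ 1 < n ∧ ¬ n.Prime ∧ Nat.Coprime a n ∧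
              (a : ZMod n) ^ ((n - 1) / 2) = (((jacobiSym (a : ℤ) n : ℤ)) : ZMod n),
            fun a n : ℕ => Odd n ∧ 1 < n ∧ ¬ n.Prime ∧
              ∃ s d : ℕ, n - 1 = 2 ^ s * d ∧ Odd d ∧
                (a ^ d ≡ 1 [MOD n] ∨ ∃ r < s, a ^ (2 ^ r * d) ≡ n - 1 [MOD n])} :
              Set (ℕ → ℕ → Prop)),
    ∀ᶠ A : ℕ in Filter.atTop,
      (({a : ℕ | 2 ≤ a ∧ a ≤ A ∧ ∃ x : ℝ, (a : ℝ) ≤ x ∧
          x ≤ Real.exp (Real.exp (Real.log a ^ (1 / κ))) ∧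
          x / Real.exp ((κ / 2 - ε) * (Real.log x * Real.log (Real.log (Real.log x))
              / Real.log (Real.log x)))
            < (({n : ℕ | (n : ℝ) ≤ x ∧ P a n}.ncard : ℕ) : ℝ)}.ncard : ℕ) : ℝ)
        ≤ A / Real.log A ^ N := by
  intro κ ε hκ hκ2 hε N P hP
  filter_upwards [almost_all_fixed κ ε hκ hκ2 hε N] with A hA
  refine le_trans ?_ hA
  have hfin : {a : ℕ | 2 ≤ a ∧ a ≤ A ∧ ∃ x : ℝ, (a : ℝ) ≤ x ∧
        x ≤ Real.exp (Real.exp (Real.log a ^ (1 / κ))) ∧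
        x / Real.exp ((κ / 2 - ε) * LL x)
          < (({n : ℕ | (n : ℝ) ≤ x ∧ Nat.FermatPsp n a}.ncard : ℕ) : ℝ)}.Finite :=
    (Set.finite_Iic A).subset fun a ha => ha.2.1
  refine Nat.cast_le.2 (Set.ncard_le_ncard ?_ hfin)
  rintro a ⟨h2, hA', x, h3, h4, h5⟩
  refine ⟨h2, hA', x, h3, h4, lt_of_lt_of_le h5 ?_⟩
  have hfx : {n : ℕ | (n : ℝ) ≤ x ∧ Nat.FermatPsp n a}.Finite :=
    (Set.finite_Iic ⌊x⌋₊).subset fun n hn => Nat.le_floor hn.1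
  refine Nat.cast_le.2 (Set.ncard_le_ncard ?_ hfx)
  rintro n ⟨hn1, hn2⟩
  exact ⟨hn1, psp_of_mem h2 hP hn2⟩

end Pool.Agent.Results.MP_757a88_nt.AlmostAllBases
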