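import Pool.Agent.Lib.MP_757a88_nt.PS.F2
import Pool.Agent.Lib.MP_757a88_nt.PS.S2

/-!
# The upper half of Pomerance's conjecture for pseudoprimes with few prime factors
-/

set_option autoImplicit false

namespace Pool.Agent.Results.MP_757a88_nt.FewPrimeFactors

open Pool.Agent.Lib.MP_757a88_nt.PS

theorem result :
    ∀ a : ℕ, 2 ≤ a →
    ∀ P ∈ ({fun a n : ℕ => Nat.FermatPsp n a,
            fun a n : ℕ => Odd n ∧ 1 < n ∧ ¬ n.Prime ∧ Nat.Coprime a n ∧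
              (a : ZMod n) ^ ((n - 1) / 2) = (((jacobiSym (a : ℤ) n : ℤ)) : ZMod n),
            fun a n : ℕ => Odd n ∧ 1 < n ∧ ¬ n.Prime ∧
              ∃ s d : ℕ, n - 1 = 2 ^ s * d ∧ Odd d ∧
                (a ^ d ≡ 1 [MOD n] ∨ ∃ r < s, a ^ (2 ^ r * d) ≡ n - 1 [MOD n])} :
              Set (ℕ → ℕ → Prop)),
    ∀ B : ℝ, 2 < B → ∀ ε : ℝ, 0 < ε → ∀ᶠ x : ℝ in Filter.atTop,
      (({n : ℕ | (n : ℝ) ≤ x ∧ P a n ∧
          (n.primeFactors.card : ℝ) ≤ Real.log x / Real.log (Real.log x) ^ B}.ncard : ℕ) : ℝ)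
        ≤ x / Real.exp (((B - 1) / 2 - ε) * (Real.log x * Real.log (Real.log (Real.log x))
            / Real.log (Real.log x))) := by
  intro a ha P hP B hB ε hε
  filter_upwards [few_primes a ha B hB ε hε] with x hx
  refine le_trans ?_ hx
  have hfx : {n : ℕ | (n : ℝ) ≤ x ∧ Nat.FermatPsp n a ∧
      (n.primeFactors.card : ℝ) ≤ Real.log x / Real.log (Real.log x) ^ B}.Finite :=
    (Set.finite_Iic ⌊x⌋₊).subset fun n hn => Nat.le_floor hn.1
  refine Nat.cast_le.2 (Set.ncard_le_ncard ?_ hfx)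
  rintro n ⟨hn1, hn2, hn3⟩
  exact ⟨hn1, psp_of_mem ha hP hn2, hn3⟩

end Pool.Agent.Results.MP_757a88_nt.FewPrimeFactors
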