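import Pool.Agent.Lib.MP_757a88_nt.PS.C3

/-!
# Pseudoprimes to several independent bases
-/

set_option autoImplicit false

namespace Pool.Agent.Results.MP_757a88_nt.SeveralBases

theorem result :
    ∀ r : ℕ, 1 ≤ r → ∀ a : Fin r → ℕ, (∀ i, 2 ≤ a i) →
    (∀ e f : Fin r → ℕ, ∏ i, a i ^ e i = ∏ i, a i ^ f i → e = f) →
    ∀ ε : ℝ, 0 < ε → ∀ᶠ x : ℝ in Filter.atTop,
      (({n : ℕ | (n : ℝ) ≤ x ∧ ∀ i, Nat.FermatPsp n (a i)}.ncard : ℕ) : ℝ)
        ≤ x / Real.exp (((r : ℝ) / (r + 1) - ε) *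
            (Real.log x * Real.log (Real.log (Real.log x)) / Real.log (Real.log x))) :=
  fun r hr a ha hind ε hε =>
    Pool.Agent.Lib.MP_757a88_nt.PS.several_bases r hr a ha hind ε hε

end Pool.Agent.Results.MP_757a88_nt.SeveralBases
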